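import Pool.Agent.W809.JS.Stm
import Pool.Agent.Helper540.Osgood

set_option autoImplicit false

open MeasureTheory Filter Topology Set Metric
open Pool.Agent.W809.JS Pool.Agent.Helper540

namespace Pool.Agent.W135.JS

/-- zeros of a function with nonvanishing derivative in the first direction are locally a graph -/
theorem local_graph {F : ℂ × ℂ → ℂ} {U : Set (ℂ × ℂ)} (hU : IsOpen U)
    (hF : DifferentiableOn ℂ F U) {q0 : ℂ × ℂ} (hq0 : q0 ∈ U) (h0 : F q0 = 0)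
    (hne : fderiv ℂ F q0 (1, 0) ≠ 0) :
    ∃ N ∈ 𝓝 q0, ∃ (V : Set ℂ) (Z : ℂ → ℂ), IsOpen V ∧ DifferentiableOn ℂ Z V ∧
      ∀ q ∈ N, F q = 0 → q.2 ∈ V ∧ q.1 = Z q.2 := by
  have hFc : ContDiffAt ℂ (1 : ℕ) F q0 :=
    (contDiffOn_of_differentiableOn hU hF 1).contDiffAt (hU.mem_nhds hq0)
  have hFs : HasStrictFDerivAt F (fderiv ℂ F q0) q0 := hFc.hasStrictFDerivAt (by simp)
  set L : ℂ × ℂ →L[ℂ] ℂ × ℂ := (fderiv ℂ F q0).prod (ContinuousLinearMap.snd ℂ ℂ ℂ) with hL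
  have hinj : Function.Injective L := by
    rw [injective_iff_map_eq_zero]
    intro x hx
    have h1 : x.2 = 0 := congrArg Prod.snd hx
    have h2 : fderiv ℂ F q0 x = 0 := congrArg Prod.fst hx
    have h3 : x = x.1 • ((1 : ℂ), (0 : ℂ)) := by
      ext <;> simp [h1]
    rw [h3, map_smul, smul_eq_mul] at h2
    have h4 : x.1 = 0 := (mul_eq_zero.1 h2).resolve_right hne
    exact Prod.ext h4 h1
  let T : (ℂ × ℂ) ≃ₗ[ℂ] (ℂ × ℂ) := LinearEquiv.ofInjectiveEndo (L : (ℂ × ℂ) →ₗ[ℂ] (ℂ × ℂ)) hinj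
  have hT : (T.toContinuousLinearEquiv : ℂ × ℂ →L[ℂ] ℂ × ℂ) = L := by
    rfl
  set Φ : ℂ × ℂ → ℂ × ℂ := fun q => (F q, q.2) with hΦ
  have hΦs : HasStrictFDerivAt Φ (T.toContinuousLinearEquiv : ℂ × ℂ →L[ℂ] ℂ × ℂ) q0 := by
    rw [hT]
    exact hFs.prodMk hasStrictFDerivAt_snd
  have hΦc : ContDiffAt ℂ (1 : ℕ) Φ q0 := hFc.prodMk contDiffAt_snd
  set G : ℂ × ℂ → ℂ × ℂ := hΦs.localInverse Φ T.toContinuousLinearEquiv q0 with hG
  have hleft : ∀ᶠ q in 𝓝 q0, G (Φ q) = q := hΦs.eventually_left_inverse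
  have hGc : ContDiffAt ℂ (1 : ℕ) G (Φ q0) :=
    hΦc.to_localInverse hΦs.hasFDerivAt (by simp)
  have hGd : ∀ᶠ y in 𝓝 (Φ q0), DifferentiableAt ℂ G y := by
    filter_upwards [hGc.eventually (by simp)] with y hy
    exact hy.differentiableAt (by simp)
  have hG2 : ∀ᶠ w in 𝓝 q0.2, DifferentiableAt ℂ G (0, w) := by
    have h1 : Tendsto (fun w : ℂ => ((0 : ℂ), w)) (𝓝 q0.2) (𝓝 (Φ q0)) := by
      have h2 : Φ q0 = (0, q0.2) := by rw [hΦ]; simp only [h0]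
      rw [h2]
      exact (Continuous.prodMk_right (0 : ℂ)).tendsto q0.2
    exact h1.eventually hGd
  obtain ⟨V, hV, hVo, hVm⟩ := _root_.eventually_nhds_iff.1 hG2
  refine ⟨{q | G (Φ q) = q ∧ q.2 ∈ V}, ?_, V, fun w => (G (0, w)).1, hVo, ?_, ?_⟩
  · have h1 : ∀ᶠ q : ℂ × ℂ in 𝓝 q0, q.2 ∈ V :=
      (continuous_snd.tendsto q0).eventually (hVo.mem_nhds hVm)
    exact hleft.and h1
  · intro w hw
    have h1 : DifferentiableAt ℂ G (0, w) := hV w hw
    have h2 : DifferentiableAt ℂ (fun w : ℂ => ((0 : ℂ), w)) w :=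
      (differentiableAt_const _).prodMk differentiableAt_id
    have h3 : DifferentiableAt ℂ (fun w : ℂ => G (0, w)) w :=
      DifferentiableAt.comp (g := G) (f := fun w : ℂ => ((0 : ℂ), w)) w h1 h2
    exact h3.fst.differentiableWithinAt
  · rintro q ⟨hq1, hq2⟩ hq
    refine ⟨hq2, ?_⟩
    have h1 : Φ q = (0, q.2) := by rw [hΦ]; simp only [hq]
    rw [h1] at hq1
    show q.1 = (G (0, q.2)).1
    rw [hq1]

/-- zeros of a nonzero analytic function on a preconnected open set form a null set -/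
theorem null_zeros {h : ℂ → ℂ} {W : Set ℂ} (hW : IsOpen W) (hWc : IsPreconnected W)
    (hh : DifferentiableOn ℂ h W) {w0 : ℂ} (hw0 : w0 ∈ W) (hne : h w0 ≠ 0) :
    volume {w | w ∈ W ∧ h w = 0} = 0 := by
  have han : AnalyticOnNhd ℂ h W := hh.analyticOnNhd hW
  have key : ∀ w ∈ {w | w ∈ W ∧ h w = 0}, ({w} : Set ℂ) ∈ 𝓝[{w | w ∈ W ∧ h w = 0}] w := by
    rintro w ⟨hw, hw1⟩
    have h1 := (han w hw).eventually_eq_zero_or_eventually_ne_zero.resolve_left (fun hz =>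
      hne (han.eqOn_zero_of_preconnected_of_eventuallyEq_zero hWc hw hz hw0))
    rw [eventually_nhdsWithin_iff] at h1
    rw [mem_nhdsWithin_iff_eventually]
    filter_upwards [h1] with x hx hx2
    by_contra hcon
    exact hx hcon hx2.2
  obtain ⟨t, -, htc, ht⟩ := TopologicalSpace.countable_cover_nhdsWithin key
  have h2 : (⋃ x ∈ t, ({x} : Set ℂ)) = t := by ext; simp
  rw [h2] at ht
  exact measure_mono_null ht (htc.measure_zero _)

theorem null2 : S_BR → S_NULL2 := by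
  intro hBR ρ g hρ hg hex
  set U : Set (ℂ × ℂ) := {q | |q.1.im| < ρ ∧ |q.2.im| < ρ} with hUdef
  have hU : IsOpen U := by
    have h1 : Continuous (fun q : ℂ × ℂ => |q.1.im|) := by fun_prop
    have h2 : Continuous (fun q : ℂ × ℂ => |q.2.im|) := by fun_prop
    exact (isOpen_lt h1 continuous_const).inter (isOpen_lt h2 continuous_const)
  obtain ⟨q1, hq11, hq12, hq1⟩ := hex
  -- the strip
  have hSo : IsOpen {w : ℂ | |w.im| < ρ} := isOpen_lt (by fun_prop) continuous_const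
  have hSc : Convex ℝ {w : ℂ | |w.im| < ρ} := by
    have : {w : ℂ | |w.im| < ρ} = Complex.imCLM ⁻¹' (ball (0 : ℝ) ρ) := by
      ext w
      simp [Complex.imCLM_apply]
    rw [this]
    exact (convex_ball (0 : ℝ) ρ).linear_preimage (Complex.imCLM : ℂ →ₗ[ℝ] ℝ)
  have hA : volume {w | w ∈ {w : ℂ | |w.im| < ρ} ∧ g (q1.1, w) = 0} = 0 := by
    refine null_zeros (h := fun w => g (q1.1, w)) hSo hSc.isPreconnected ?_
      (w0 := q1.2) hq12 hq1
    intro w hw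
    have h1 : DifferentiableAt ℂ g (q1.1, w) := hg.differentiableAt (hU.mem_nhds ⟨hq11, hw⟩)
    have h2 : DifferentiableAt ℂ (fun w : ℂ => (q1.1, w)) w :=
      (differentiableAt_const _).prodMk differentiableAt_id
    exact (DifferentiableAt.comp (g := g) (f := fun w : ℂ => (q1.1, w)) w h1
      h2).differentiableWithinAt
  set e : ℂ × ℂ := (1, 0) with he
  have hB : ∀ m : ℕ, volume {w : ℂ | ∃ ζ : ℂ, ((ζ, w) ∈ U ∧ dirD g e m (ζ, w) = 0 ∧
      dirD g e (m + 1) (ζ, w) ≠ 0) ∧ ζ.im = w.im ^ 2} = 0 := by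
    intro m
    set Tm : Set (ℂ × ℂ) := {q | q ∈ U ∧ dirD g e m q = 0 ∧ dirD g e (m + 1) q ≠ 0} with hTm
    have hloc : ∀ q ∈ Tm, ∃ N : Set (ℂ × ℂ), N ∈ 𝓝[Tm] q ∧
        volume {w : ℂ | ∃ ζ : ℂ, (ζ, w) ∈ Tm ∧ (ζ, w) ∈ N ∧ ζ.im = w.im ^ 2} = 0 := by
      rintro q ⟨hq, hq0, hqn⟩
      obtain ⟨N, hN, V, Z, hV, hZ, hNV⟩ := local_graph hU (dirD_diff hU hg e m) hq hq0 hqn
      refine ⟨N, mem_nhdsWithin_of_mem_nhds hN, measure_mono_null ?_ (hBR V Z hV hZ)⟩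
      rintro w ⟨ζ, h1, h2, h3⟩
      obtain ⟨h4, h5⟩ := hNV _ h2 h1.2.1
      refine ⟨h4, ?_⟩
      have h6 : ζ = Z w := h5
      rw [← h6]
      exact h3
    choose! N hN1 hN2 using hloc
    obtain ⟨t, hts, htc, ht⟩ := TopologicalSpace.countable_cover_nhdsWithin hN1
    have hsub : {w : ℂ | ∃ ζ : ℂ, (ζ, w) ∈ Tm ∧ ζ.im = w.im ^ 2} ⊆
        ⋃ x ∈ t, {w : ℂ | ∃ ζ : ℂ, (ζ, w) ∈ Tm ∧ (ζ, w) ∈ N x ∧ ζ.im = w.im ^ 2} := by
      rintro w ⟨ζ, h1, h2⟩
      obtain ⟨x, hx, hx2⟩ := mem_iUnion₂.1 (ht h1)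
      exact mem_iUnion₂.2 ⟨x, hx, ζ, h1, hx2, h2⟩
    exact measure_mono_null hsub ((measure_biUnion_null_iff htc).2 (fun x hx => hN2 x (hts hx)))
  refine measure_mono_null ?_ (measure_union_null hA (measure_iUnion_null hB))
  rintro w ⟨hw1, hw2, ζ, hζ, hgz⟩
  have hqU : (ζ, w) ∈ U := by
    refine ⟨?_, hw1⟩
    show |ζ.im| < ρ
    rw [hζ, abs_of_nonneg (by positivity)]
    exact hw2
  by_cases hall : ∀ j, dirD g e j (ζ, w) = 0
  · left
    refine ⟨hw1, ?_⟩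
    have hev := dirD_all_zero hU hg hqU hall
    have hset : {t : ℂ | (ζ, w) + t • e ∈ U} = (fun t : ℂ => ζ + t) ⁻¹' {z : ℂ | |z.im| < ρ} := by
      ext t
      simp only [he, mem_ofPred_eq, mem_preimage, hUdef]
      simp [hw1]
    have hWo : IsOpen {t : ℂ | (ζ, w) + t • e ∈ U} := hU.preimage (line_continuous _ e)
    have hWc : Convex ℝ {t : ℂ | (ζ, w) + t • e ∈ U} := by
      rw [hset]
      exact hSc.translate_preimage_right ζ
    have han : AnalyticOnNhd ℂ (fun t : ℂ => g ((ζ, w) + t • e)) {t : ℂ | (ζ, w) + t • e ∈ U} :=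
      (line_diff hg (ζ, w) e).analyticOnNhd hWo
    have h0W : (0 : ℂ) ∈ {t : ℂ | (ζ, w) + t • e ∈ U} := by
      show (ζ, w) + (0 : ℂ) • e ∈ U
      rw [zero_smul, add_zero]
      exact hqU
    have h1W : (q1.1 - ζ) ∈ {t : ℂ | (ζ, w) + t • e ∈ U} := by
      rw [hset]
      show |(ζ + (q1.1 - ζ)).im| < ρ
      rw [add_sub_cancel]
      exact hq11
    have h11 := han.eqOn_zero_of_preconnected_of_eventuallyEq_zero hWc.isPreconnected h0W hev h1W
    have h12 : (ζ, w) + (q1.1 - ζ) • e = (q1.1, w) := by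
      ext <;> simp [he]
    simpa only [h12, Pi.zero_apply] using h11
  · right
    push Not at hall
    classical
    have hj := Nat.find_spec hall
    have hmin : ∀ i < Nat.find hall, dirD g e i (ζ, w) = 0 := by
      intro i hi
      by_contra hcon
      exact Nat.find_min hall hi hcon
    have hj0 : Nat.find hall ≠ 0 := by
      intro h
      rw [h] at hj
      exact hj hgz
    obtain ⟨m, hm⟩ := Nat.exists_eq_succ_of_ne_zero hj0
    rw [hm] at hj hmin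
    exact mem_iUnion.2 ⟨m, ζ, ⟨hqU, hmin m (Nat.lt_succ_self m), hj⟩, hζ⟩

end Pool.Agent.W135.JS
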